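import Pool.Agent.H39.CN.Check

set_option linter.all false

namespace H39.CN

/-- parameters -/
noncomputable def p4_2 : Prm := ⟨4, 2, 30, 1993763709744714489791692340598957409625453920203032786250854304706289332278163506523044129104689772351008425233144381966755458804782646178579301539317826999237889066464120687689228573928488821275892456966683949411364644458102769058367180311431023397564740784284302944296346117075098788291099236056440395351768011652960338171719112746330052731657620594018096565416748519000298444867302735225232426892493702489348824847516558062474701570051, 15211209943731091100609205664624648094627674124321862001398615797267826732160732597752928069908058747120677782141371999106163365812104218690307867246464418602294402725029438495672892587746134881173856474456103536308131369176944559595109732249065116308456827766582113685874981269372503806161975145534709007693445841841281236028819679474738706360820269903962915441282473146529730887701065700060690070627776398410035460517391608567562240⟩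

/-- initial state -/
noncomputable def s4_2 : St := ⟨5, 0, 16909060, 0, 585, 0, 0, 397444631628981487398138749046400654145762820381874332451597321734669043887713341000412388986347871092924744232617713420192442404469566792142135735308467080495529221613479384417375835299619662634841722692340405212026484674723374432260, 183904007696414917360707921017717230249119044945797962390718973024360527349028676066137566944576168616873527238568317436460070439797891857723348902624892493168360143528159581777735168020925890070061459409982046201055090445548000954329736315909303606347587762548711943155012652623719994955872870064580376590811387, 1071459792871967167703171944402768648822655448850948996846471713033855226036862753748750579466907714195799904311247762857852874240977324585358795444595597047770589536209812012508856982226068397713026824366677241111124488367008053799331342408198773667034703622846317017206688827800306611573688853642242263486127636684070522852900669276154364851388572237069128475727232324125036061644276713336011653417643378910709131117263855504455322756724504794264909688686856601051274728078075423700283100123024815930439513921123250410090867332053782573760956235061130166053501302706881596009026737977821627692476331099392148849678730614611863937836799342213153388236260700226487731438249283726361285050284095055047569952778702260003271557590194145037360741773608066399179328303679387470080249903824717166330586681913430068903078630765025592426874907278573211513924320181297189892736842392201059377043258429968774325871405729430232794371183353910565096217393298569083727284325739560132830225700848416425550875672893595470362798316399347418651790166567667382831417172781659234508365452866290517793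0492165756316090313037493948395492141918241858593547873996462984467053842311543147948344922432461680522828443078918867067556156093427170448488723852482945185365529371366444009806661517084890372129170456844170254468305484757336335954151838982628402844203222572138358005756395526095109224283755709079200773316365979506746816039835853556832212170230322228004827275717439939135942195540106550308955951475641670424924741178701930513355284274471929139522328218991439398325609831459382042570175373524140537604635482057150095672681653886755489154798215189991624142881072606014584207559339594036250080831226095929663368522576493465120443647692103434854276037088472822078723647627181626784954406184964100240307011143889904933404977800085845378721164786693515101287311320041573076260891521390985500794470143097048194204117408480258787966872201595876060258632608967649927788378993624778674629296493954620711516680106274458742812852583984801272271084309619670667122011989858572074376072161492636231881889514147711435074804085207628521578476088440802295209572341459664296031926678926134534218370443809403127484307139509941139692116086103050744063050124357902794755⟩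

end H39.CN
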